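import Mathlib

/-!
# A kernel checker for unit propagation proofs

Literals are numbers `< 2 N`: `v < N` is the variable `v`, `N + v` its negation. A clause is the
number whose binary digits are its literals. `check N P ins pf = true` implies that the clauses
`ins` cannot all hold. Evaluation by the kernel uses only accelerated operations of `ℕ`.
-/

set_option autoImplicit false

noncomputable section

namespace Pool.Agent.H26.RUP

/-- truth of a literal -/
def Lit (N : ℕ) (σ : ℕ → Prop) (l : ℕ) : Prop := (l < N ∧ σ l) ∨ (N ≤ l ∧ ¬ σ (l - N))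

/-- truth of a clause -/
def Cl (N : ℕ) (σ : ℕ → Prop) (C : ℕ) : Prop := ∃ l, l < 2 * N ∧ C.testBit l = true ∧ Lit N σ l

/-- all literals of `A` are false -/
def Fal (N : ℕ) (σ : ℕ → Prop) (A : ℕ) : Prop :=
  ∀ l, l < 2 * N → A.testBit l = true → ¬ Lit N σ l

/-- binary trees of clauses -/
inductive T : Type
  | l (c : ℕ) : T
  | n (c : ℕ) (a b : T) : T

/-- the entry at the path `q` -/
def T.get (t : T) : ℕ → ℕ :=
  T.rec (motive := fun _ => ℕ → ℕ) (fun c _ => c)
    (fun c _ _ ga gb q => cond (Nat.beq q 1) c
      (cond (Nat.beq (Nat.land q 1) 0) (ga (Nat.shiftRight q 1)) (gb (Nat.shiftRight q 1)))) t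

/-- all entries satisfy `p` -/
def T.All (p : ℕ → Prop) : T → Prop
  | .l c => p c
  | .n c a b => p c ∧ a.All p ∧ b.All p

theorem T.get_all {p : ℕ → Prop} : ∀ {t : T}, t.All p → ∀ q, p (t.get q)
  | .l _, h, _ => h
  | .n c a b, h, q => by
    obtain ⟨h1, h2, h3⟩ := h
    change p (cond (Nat.beq q 1) c
      (cond (Nat.beq (Nat.land q 1) 0) (a.get (Nat.shiftRight q 1)) (b.get (Nat.shiftRight q 1))))
    cases Nat.beq q 1
    · cases Nat.beq (Nat.land q 1) 0
      · exact T.get_all h3 _
      · exact T.get_all h2 _
    · exact h1

/-- the data base: a list of trees with their sizes -/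
abbrev DB : Type := List (ℕ × T)

/-- all entries satisfy `p` -/
def AllDB (p : ℕ → Prop) (db : DB) : Prop := ∀ x ∈ db, x.2.All p

/-- the entry at the path `q` of the tree number `i` (`0` if there is no such tree) -/
def get (db : DB) : ℕ → ℕ → ℕ :=
  List.rec (motive := fun _ => ℕ → ℕ → ℕ) (fun _ _ => 0)
    (fun x _ ih i q => Nat.rec (motive := fun _ => ℕ) (x.2.get q) (fun j _ => ih j q) i) db

theorem get_all {p : ℕ → Prop} : ∀ {db : DB}, AllDB p db → ∀ i q, get db i q = 0 ∨ p (get db i q)
  | [], _, _, _ => Or.inl rfl
  | x :: _, h, 0, q => Or.inr (T.get_all (h x (List.mem_cons_self ..)) q)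
  | _ :: db, h, i + 1, q => get_all (db := db) (fun y hy => h y (List.mem_cons_of_mem _ hy)) i q

/-- add a clause -/
def push (c : ℕ) : DB → DB
  | (w1, t1) :: (w2, t2) :: ts =>
    cond (Nat.beq w1 w2) ((w1 + w2 + 1, .n c t1 t2) :: ts) ((1, .l c) :: (w1, t1) :: (w2, t2) :: ts)
  | [x] => [(1, .l c), x]
  | [] => [(1, .l c)]

theorem push_all {p : ℕ → Prop} {c : ℕ} (hc : p c) : ∀ {db : DB}, AllDB p db → AllDB p (push c db)
  | [], _, x, hx => by
    rw [push, List.mem_singleton] at hx
    rw [hx]
    exact hc
  | [y], h, x, hx => by
    rw [push, List.mem_cons, List.mem_singleton] at hx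
    rcases hx with rfl | rfl
    · exact hc
    · exact h x (List.mem_singleton.2 rfl)
  | (w1, t1) :: (w2, t2) :: ts, h, x, hx => by
    rw [push] at hx
    cases hb : Nat.beq w1 w2 with
    | false =>
      rw [hb, cond_false, List.mem_cons] at hx
      rcases hx with rfl | hx
      · exact hc
      · exact h x hx
    | true =>
      rw [hb, cond_true, List.mem_cons] at hx
      rcases hx with rfl | hx
      · exact ⟨hc, h (w1, t1) (by simp), h (w2, t2) (by simp)⟩
      · exact h x (by simp [hx])

/-- the literals falsified by a unit clause `r`, added to `A` -/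
def ngn (N P A r : ℕ) : ℕ :=
  Nat.lor A (cond (Nat.ble P r) (Nat.shiftRight r N) (Nat.shiftLeft r N))

/-- unit propagation: `true` if the hints `H` (digits in base `2 ^ 24`: five bits for the tree, the
rest for the path) lead from the falsified literals `A` to a conflict -/
def run (N P : ℕ) (db : DB) (f : ℕ) : ℕ → ℕ → Bool :=
  Nat.rec (motive := fun _ => ℕ → ℕ → Bool) (fun _ _ => false)
    (fun _ ih H A =>
      Nat.rec (motive := fun _ => Bool) (ih (Nat.shiftRight H 24) A)
        (fun c _ =>
          Nat.rec (motive := fun _ => Bool) true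
            (fun r _ =>
              Nat.rec (motive := fun _ => Bool)
                (Nat.rec (motive := fun _ => Bool) false
                  (fun a _ => ih (Nat.shiftRight H 24) (Nat.succ a)) (ngn N P A (Nat.succ r)))
                (fun _ _ => ih (Nat.shiftRight H 24) A) (Nat.land (Nat.succ r) r))
            (Nat.xor (Nat.succ c) (Nat.land (Nat.succ c) A)))
        (get db (Nat.land H 31) (Nat.land (Nat.shiftRight H 5) 524287))) f

theorem pow_of_land {r l : ℕ} (h : Nat.land (r + 1) r = 0) (hl : (r + 1).testBit l = true) :
    r + 1 = 2 ^ l := by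
  induction l generalizing r with
  | zero =>
    rw [Nat.testBit_zero] at hl
    have hodd : (r + 1) % 2 = 1 := by simpa using hl
    by_contra hne
    have hr : r ≠ 0 := by rintro rfl; exact hne rfl
    obtain ⟨k, rfl⟩ : ∃ k, r = 2 * k := ⟨r / 2, by omega⟩
    have hk : k ≠ 0 := by rintro rfl; exact hr rfl
    obtain ⟨i, hi⟩ : ∃ i, k.testBit i = true := by
      by_contra hcon
      push Not at hcon
      apply hk
      apply Nat.eq_of_testBit_eq
      intro i
      rw [Nat.zero_testBit]
      simpa using hcon i
    have h1 : (Nat.land (2 * k + 1) (2 * k)).testBit (i + 1) = true := by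
      change ((2 * k + 1) &&& (2 * k)).testBit (i + 1) = true
      rw [Nat.testBit_and, Nat.testBit_succ, Nat.testBit_succ]
      have e1 : (2 * k + 1) / 2 = k := by omega
      have e2 : 2 * k / 2 = k := by omega
      rw [e1, e2, hi]
      rfl
    rw [h, Nat.zero_testBit] at h1
    exact Bool.false_ne_true h1
  | succ l ih =>
    have hev : (r + 1) % 2 = 0 := by
      by_contra hodd
      have hodd' : (r + 1) % 2 = 1 := by omega
      obtain ⟨k, rfl⟩ : ∃ k, r = 2 * k := ⟨r / 2, by omega⟩
      rw [Nat.testBit_succ] at hl
      have e1 : (2 * k + 1) / 2 = k := by omega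
      rw [e1] at hl
      have h1 : (Nat.land (2 * k + 1) (2 * k)).testBit (l + 1) = true := by
        change ((2 * k + 1) &&& (2 * k)).testBit (l + 1) = true
        rw [Nat.testBit_and, Nat.testBit_succ, Nat.testBit_succ]
        have e2 : 2 * k / 2 = k := by omega
        rw [e1, e2, hl]
        rfl
      rw [h, Nat.zero_testBit] at h1
      exact Bool.false_ne_true h1
    obtain ⟨k, hk⟩ : ∃ k, r + 1 = 2 * (k + 1) := ⟨(r + 1) / 2 - 1, by omega⟩
    have hl' : (k + 1).testBit l = true := by
      rw [Nat.testBit_succ, hk] at hl
      have e1 : 2 * (k + 1) / 2 = k + 1 := by omega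
      rwa [e1] at hl
    have hland : Nat.land (k + 1) k = 0 := by
      apply Nat.eq_of_testBit_eq
      intro i
      have h1 : (Nat.land (r + 1) r).testBit (i + 1) = false := by
        rw [h, Nat.zero_testBit]
      change ((r + 1) &&& r).testBit (i + 1) = false at h1
      rw [Nat.testBit_and, Nat.testBit_succ, Nat.testBit_succ, hk] at h1
      have e1 : 2 * (k + 1) / 2 = k + 1 := by omega
      have e2 : r / 2 = k := by omega
      rw [e1, e2] at h1
      change ((k + 1) &&& k).testBit i = _
      rw [Nat.testBit_and, h1, Nat.zero_testBit]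
    have := ih hland hl'
    rw [hk, this, pow_succ]
    ring

theorem fal_ngn {N P A r : ℕ} {σ : ℕ → Prop} (hP : P = 2 ^ N) (hA : Fal N σ A) {l : ℕ}
    (hl : l < 2 * N) (hr : r = 2 ^ l) (ht : Lit N σ l) : Fal N σ (ngn N P A r) := by
  intro i hi hbit
  unfold ngn at hbit
  change (A ||| cond (Nat.ble P r) (Nat.shiftRight r N) (Nat.shiftLeft r N)).testBit i = true
    at hbit
  rw [Nat.testBit_or, Bool.or_eq_true] at hbit
  rcases hbit with h | h
  · exact hA i hi h
  · by_cases hlN : l < N
    · have h1 : Nat.ble P r = false := by
        rw [← Bool.not_eq_true, Nat.ble_eq, hP, hr]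
        have := Nat.pow_lt_pow_right (show 1 < 2 by norm_num) hlN
        omega
      rw [h1, cond_false] at h
      change (r <<< N).testBit i = true at h
      rw [hr, Nat.testBit_shiftLeft, Bool.and_eq_true, Nat.testBit_two_pow] at h
      have h2 : N ≤ i := by simpa using h.1
      have h3 : l = i - N := by simpa using h.2
      rintro (⟨h4, _⟩ | ⟨_, h5⟩)
      · omega
      · rw [← h3] at h5
        rcases ht with ⟨_, h6⟩ | ⟨h6, _⟩
        · exact h5 h6
        · omega
    · have h1 : Nat.ble P r = true := by
        rw [Nat.ble_eq, hP, hr]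
        exact Nat.pow_le_pow_right (by norm_num) (by omega)
      rw [h1, cond_true] at h
      change (r >>> N).testBit i = true at h
      rw [hr, Nat.testBit_shiftRight, Nat.testBit_two_pow] at h
      have h3 : l = N + i := by simpa using h
      rintro (⟨_, h5⟩ | ⟨h4, _⟩)
      · rcases ht with ⟨h6, _⟩ | ⟨_, h6⟩
        · omega
        · apply h6
          rw [h3, Nat.add_sub_cancel_left]
          exact h5
      · omega

theorem run_sound {N P : ℕ} {σ : ℕ → Prop} (hP : P = 2 ^ N) {db : DB} (hdb : AllDB (Cl N σ) db) :
    ∀ (f H A : ℕ), run N P db f H A = true → Fal N σ A → False := by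
  intro f
  induction f with
  | zero => intro H A h _; exact Bool.false_ne_true h
  | succ f ih =>
    intro H A h hA
    change Nat.rec (motive := fun _ => Bool) (run N P db f (Nat.shiftRight H 24) A)
        (fun c _ =>
          Nat.rec (motive := fun _ => Bool) true
            (fun r _ =>
              Nat.rec (motive := fun _ => Bool)
                (Nat.rec (motive := fun _ => Bool) false
                  (fun a _ => run N P db f (Nat.shiftRight H 24) (Nat.succ a))
                  (ngn N P A (Nat.succ r)))
                (fun _ _ => run N P db f (Nat.shiftRight H 24) A) (Nat.land (Nat.succ r) r))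
            (Nat.xor (Nat.succ c) (Nat.land (Nat.succ c) A)))
        (get db (Nat.land H 31) (Nat.land (Nat.shiftRight H 5) 524287)) = true at h
    have hg := get_all hdb (Nat.land H 31) (Nat.land (Nat.shiftRight H 5) 524287)
    revert h hg
    generalize get db (Nat.land H 31) (Nat.land (Nat.shiftRight H 5) 524287) = C
    intro h hg
    cases C with
    | zero => exact ih _ _ h hA
    | succ c =>
      have hC : Cl N σ (c + 1) := by
        rcases hg with h0 | h0
        · exact absurd h0 (Nat.succ_ne_zero c)
        · exact h0
      obtain ⟨l, hl, hlC, hlt⟩ := hC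
      have hlA : A.testBit l = false := by
        by_contra hcon
        exact hA l hl (by simpa using hcon) hlt
      have hrl : (Nat.xor (Nat.succ c) (Nat.land (Nat.succ c) A)).testBit l = true := by
        change ((c + 1) ^^^ ((c + 1) &&& A)).testBit l = true
        rw [Nat.testBit_xor, Nat.testBit_and, hlC, hlA]
        rfl
      dsimp only at h
      revert h hrl
      generalize Nat.xor (Nat.succ c) (Nat.land (Nat.succ c) A) = r
      intro h hrl
      cases r with
      | zero => rw [Nat.zero_testBit] at hrl; exact Bool.false_ne_true hrl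
      | succ r =>
        dsimp only at h
        revert h
        generalize hz : Nat.land (Nat.succ r) r = z
        intro h
        cases z with
        | zero =>
          have hpow := pow_of_land hz hrl
          have hF := fal_ngn hP hA hl hpow hlt
          revert h hF
          change Nat.rec (motive := fun _ => Bool) false
            (fun a _ => run N P db f (Nat.shiftRight H 24) (Nat.succ a))
            (ngn N P A (Nat.succ r)) = true → Fal N σ (ngn N P A (Nat.succ r)) → False
          generalize ngn N P A (Nat.succ r) = B
          intro h hF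
          cases B with
          | zero => exact Bool.false_ne_true h
          | succ a => exact ih _ _ h hF
        | succ z => exact ih _ _ h hA

/-- a step: the clause, the number of hints, the hints -/
structure St : Type where
  D : ℕ
  f : ℕ
  H : ℕ

/-- check the steps one after the other -/
def go (N P : ℕ) (pf : List St) : DB → Bool :=
  List.rec (motive := fun _ => DB → Bool) (fun _ => false)
    (fun s _ ih db => cond (run N P db s.f s.H s.D)
      (Nat.rec (motive := fun _ => Bool) true (fun _ _ => ih (push s.D db)) s.D) false) pf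

theorem go_sound {N P : ℕ} {σ : ℕ → Prop} (hP : P = 2 ^ N) : ∀ (pf : List St) {db : DB},
    go N P pf db = true → AllDB (Cl N σ) db → False
  | [], _, h, _ => Bool.false_ne_true h
  | ⟨D, f, H⟩ :: pf, db, h, hdb => by
    change cond (run N P db f H D)
      (Nat.rec (motive := fun _ => Bool) true (fun _ _ => go N P pf (push D db)) D) false = true
      at h
    cases hr : run N P db f H D with
    | false => rw [hr] at h; exact Bool.false_ne_true h
    | true =>
      rw [hr, cond_true] at h
      have hD : Cl N σ D := by
        by_contra hcon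
        exact run_sound hP hdb f H D hr fun l hl hb hL => hcon ⟨l, hl, hb, hL⟩
      cases D with
      | zero =>
        obtain ⟨l, _, hb, _⟩ := hD
        rw [Nat.zero_testBit] at hb
        exact Bool.false_ne_true hb
      | succ D => exact go_sound hP pf h (push_all hD hdb)

/-- the data base of the clauses `ins` -/
def mk (ins : List ℕ) : DB → DB :=
  List.rec (motive := fun _ => DB → DB) (fun db => db) (fun c _ ih db => ih (push c db)) ins

theorem mk_all {p : ℕ → Prop} : ∀ (ins : List ℕ) (db : DB), (∀ c ∈ ins, p c) → AllDB p db →
    AllDB p (mk ins db)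
  | [], _, _, h => h
  | c :: ins, db, hc, h => mk_all ins (push c db) (fun d hd => hc d (List.mem_cons_of_mem _ hd))
    (push_all (hc c (List.mem_cons_self ..)) h)

/-- the checker -/
def check (N P : ℕ) (ins : List ℕ) (pf : List St) : Bool := go N P pf (mk ins [])

/-- **Soundness.** -/
theorem check_sound {N P : ℕ} (hP : P = 2 ^ N) {ins : List ℕ} {pf : List St}
    (h : check N P ins pf = true) (σ : ℕ → Prop) (hins : ∀ C ∈ ins, Cl N σ C) : False :=
  go_sound hP pf h (mk_all ins [] hins fun _ hx => absurd hx (List.not_mem_nil))

end Pool.Agent.H26.RUP
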